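import Pool.Agent.Helper35.HG.StA

/-! Project HG, module FRM: frames of the normal space. -/

set_option autoImplicit false

namespace Pool.Agent.Helper99.HG

open Helper35.HG Helper35.HC Helper35.HSF Helper35.MS Helper35.PI Helper35.PI2 Helper32.CL
open Module

/-- adding an orthogonal line -/
private theorem frm_add {N : ℕ} (S : Submodule ℝ (EE N)) (u : EE N) (hu : u ∈ Sᗮ) (h0 : u ≠ 0) :
    finrank ℝ (S ⊔ Submodule.span ℝ {u} : Submodule ℝ (EE N)) = finrank ℝ S + 1 := by
  have h := Submodule.finrank_sup_add_finrank_inf_eq S (Submodule.span ℝ {u})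
  have hinf : S ⊓ Submodule.span ℝ {u} = ⊥ := by
    rw [Submodule.eq_bot_iff]
    rintro v ⟨hv, hv'⟩
    obtain ⟨c, rfl⟩ := Submodule.mem_span_singleton.1 hv'
    have h1 : (inner ℝ (c • u) u : ℝ) = 0 := (Submodule.mem_orthogonal S u).1 hu _ hv
    rw [real_inner_smul_left] at h1
    rcases mul_eq_zero.1 h1 with h1 | h1
    · rw [h1, zero_smul]
    · exact absurd (inner_self_eq_zero.1 h1) h0
  rw [hinf, finrank_bot, finrank_span_singleton h0, add_zero] at h
  exact h

/-- the normal space -/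
private theorem frm_space (n N k : ℕ) (hN : N = n + k + 3) (L : EE n →ₗᵢ[ℝ] EE N) (x₀ : EE N)
    (hx : x₀ ≠ 0) (hL : ∀ v, (inner ℝ (L v) x₀ : ℝ) = 0) :
    ∃ V : Submodule ℝ (EE N), finrank ℝ V = k + 2 ∧ ∀ v, v ∈ V ↔
      (∀ y, (inner ℝ v (L y) : ℝ) = 0) ∧ (inner ℝ v x₀ : ℝ) = 0 := by
  obtain ⟨S0, hS0⟩ : ∃ S0 : Submodule ℝ (EE N), S0 = LinearMap.range L.toLinearMap := ⟨_, rfl⟩
  have hmem0 : ∀ v : EE N, v ∈ S0ᗮ ↔ ∀ y, (inner ℝ (L y) v : ℝ) = 0 := by
    intro v
    rw [Submodule.mem_orthogonal, hS0]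
    constructor
    · intro h y
      exact h _ ⟨y, rfl⟩
    · rintro h _ ⟨y, rfl⟩
      exact h y
  have hf0 : finrank ℝ S0 = n := by
    rw [hS0, LinearMap.finrank_range_of_inj L.injective, finrank_euclideanSpace_fin]
  have hf1 : finrank ℝ (S0 ⊔ Submodule.span ℝ {x₀} : Submodule ℝ (EE N)) = n + 1 := by
    rw [frm_add S0 x₀ ((hmem0 x₀).2 hL) hx, hf0]
  refine ⟨(S0 ⊔ Submodule.span ℝ {x₀})ᗮ, ?_, ?_⟩
  · have h := Submodule.finrank_add_finrank_orthogonal
      (S0 ⊔ Submodule.span ℝ {x₀} : Submodule ℝ (EE N))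
    rw [finrank_euclideanSpace_fin, hf1] at h
    omega
  · intro v
    rw [← Submodule.inf_orthogonal, Submodule.mem_inf, hmem0,
      Submodule.mem_orthogonal_singleton_iff_inner_right, real_inner_comm v x₀]
    constructor
    · rintro ⟨h1, h2⟩
      exact ⟨fun y => by rw [real_inner_comm]; exact h1 y, h2⟩
    · rintro ⟨h1, h2⟩
      exact ⟨fun y => by rw [real_inner_comm]; exact h1 y, h2⟩

/-- bases adapted to a vector -/
private theorem frm_one {k : ℕ} (V : Type) [NormedAddCommGroup V] [InnerProductSpace ℝ V]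
    [FiniteDimensional ℝ V] (hV : finrank ℝ V = k + 2) (u h : V) (hu : ‖u‖ = 1) : ∃ b : OrthonormalBasis (Fin (k + 2)) ℝ V, b 0 = u ∧
      ((∃ c : ℝ, h = c • u) → ∀ j : Fin (k + 1), (inner ℝ h (b j.succ) : ℝ) = 0) ∧
      ∀ j : Fin k, (inner ℝ h (b j.succ.succ) : ℝ) = 0 := by
  have hc : finrank ℝ V = Fintype.card (Fin (k + 2)) := by rw [hV, Fintype.card_fin]
  by_cases hw : ∃ c : ℝ, h = c • u
  · obtain ⟨b, hb⟩ := Orthonormal.exists_orthonormalBasis_extension_of_card_eq (𝕜 := ℝ) hc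
      (v := fun _ : Fin (k + 2) => u) (s := {0}) (by
        constructor
        · intro i
          exact hu
        · intro i j hij
          exact absurd (Subtype.ext (i.2.trans j.2.symm)) hij)
    have hb0 : b 0 = u := hb 0 rfl
    have hj : ∀ j : Fin (k + 1), (inner ℝ h (b j.succ) : ℝ) = 0 := by
      intro j
      obtain ⟨c, hc⟩ := hw
      rw [hc, real_inner_smul_left, ← hb0, b.orthonormal.2 (Fin.succ_ne_zero j).symm, mul_zero]
    exact ⟨b, hb0, fun _ => hj, fun j => hj j.succ⟩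
  · obtain ⟨w, hwd⟩ : ∃ w : V, w = h - (inner ℝ u h : ℝ) • u := ⟨_, rfl⟩
    have hw0 : w ≠ 0 := by
      intro h0
      exact hw ⟨_, sub_eq_zero.1 (hwd.symm.trans h0)⟩
    have hn : ‖w‖ ≠ 0 := norm_ne_zero_iff.2 hw0
    have huw : (inner ℝ u w : ℝ) = 0 := by
      rw [hwd, inner_sub_right, real_inner_smul_right, real_inner_self_eq_norm_sq, hu]
      ring
    have h01 : (0 : Fin (k + 2)) ≠ 1 := by
      intro h0
      have := congrArg Fin.val h0
      simp at this
    obtain ⟨b, hb⟩ := Orthonormal.exists_orthonormalBasis_extension_of_card_eq (𝕜 := ℝ) hc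
      (v := fun i : Fin (k + 2) => if i = 0 then u else ‖w‖⁻¹ • w) (s := {0, 1}) (by
        have e0 : (inner ℝ u (‖w‖⁻¹ • w) : ℝ) = 0 := by
          rw [real_inner_smul_right, huw, mul_zero]
        constructor
        · intro i
          by_cases hi : (i : Fin (k + 2)) = 0
          · change ‖(if (i : Fin (k + 2)) = 0 then u else ‖w‖⁻¹ • w)‖ = 1
            rw [if_pos hi, hu]
          · change ‖(if (i : Fin (k + 2)) = 0 then u else ‖w‖⁻¹ • w)‖ = 1
            rw [if_neg hi, norm_smul, norm_inv, norm_norm, inv_mul_cancel₀ hn]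
        · intro i j hij
          change (inner ℝ (if (i : Fin (k + 2)) = 0 then u else ‖w‖⁻¹ • w)
            (if (j : Fin (k + 2)) = 0 then u else ‖w‖⁻¹ • w) : ℝ) = 0
          rcases i.2 with hi | hi <;> rcases j.2 with hj | hj
          · exact absurd (Subtype.ext (hi.trans hj.symm)) hij
          · rw [if_pos hi, if_neg (by rw [Set.mem_singleton_iff.1 hj]; exact h01.symm)]
            exact e0
          · rw [if_pos hj, if_neg (by rw [Set.mem_singleton_iff.1 hi]; exact h01.symm),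
              real_inner_comm]
            exact e0
          · exact absurd (Subtype.ext (hi.trans hj.symm)) hij)
    have hb0 : b 0 = u := by
      rw [hb 0 (by simp), if_pos rfl]
    have hb1 : b 1 = ‖w‖⁻¹ • w := by
      rw [hb 1 (by simp), if_neg h01.symm]
    refine ⟨b, hb0, fun h => absurd h hw, ?_⟩
    intro j
    have hh : h = (inner ℝ u h : ℝ) • b 0 + ‖w‖ • b 1 := by
      rw [hb0, hb1, smul_smul, mul_inv_cancel₀ hn, one_smul, hwd]
      abel
    have n0 : (0 : Fin (k + 2)) ≠ j.succ.succ := (Fin.succ_ne_zero _).symm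
    have n1 : (1 : Fin (k + 2)) ≠ j.succ.succ := by
      intro h1
      have := congrArg Fin.val h1
      simp at this
    rw [hh, inner_add_left, real_inner_smul_left, real_inner_smul_left, b.orthonormal.2 n0,
      b.orthonormal.2 n1]
    ring

theorem hFRM : StFRM := by
  intro n N k hN hn A r L x₀ hA
  have hx0 : x₀ ≠ 0 := by
    intro h
    have h1 := hA.nx
    rw [h, norm_zero] at h1
    have h2 : (0 : ℝ) < 1 / r := one_div_pos.2 hA.r0
    rw [← h1] at h2
    norm_num at h2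
  obtain ⟨V, hV, hmem⟩ := frm_space n N k hN L x₀ hx0 hA.Lx
  -- the vectors `B_ij`
  have hB : ∀ i j, A i j + (if i = j then r else 0) • x₀ ∈ V := by
    intro i j
    rw [hmem]
    constructor
    · intro y
      rw [inner_add_left, hA.AL, real_inner_smul_left, real_inner_comm, hA.Lx]
      ring
    · rw [inner_add_left, hA.Ax, real_inner_smul_left, real_inner_self_eq_norm_sq, hA.nx]
      have hr := hA.r0.ne'
      by_cases hij : i = j
      · rw [if_pos hij, if_pos hij]
        field_simp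
        ring
      · rw [if_neg hij, if_neg hij]
        ring
  -- every orthonormal basis of `V` is a frame
  have hfr : ∀ b : OrthonormalBasis (Fin (k + 2)) ℝ V,
      NFm A (fun α => kn A (b α : EE N)) r (fun α => (b α : EE N)) x₀ ∧
      (∀ α, UN L x₀ (b α : EE N)) ∧ ∀ v : V, (v : EE N) = ∑ α, (inner ℝ (b α) v : ℝ) •
        (b α : EE N) := by
    intro b
    have hsum : ∀ v : V, (v : EE N) = ∑ α, (inner ℝ (b α) v : ℝ) • (b α : EE N) := by
      intro v
      have h1 := congrArg (fun z : V => (z : EE N)) (b.sum_repr' v)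
      simp only [Submodule.coe_sum, Submodule.coe_smul] at h1
      exact h1.symm
    have hUN : ∀ α, UN L x₀ (b α : EE N) := by
      intro α
      obtain ⟨h1, h2⟩ := (hmem _).1 (b α).2
      exact ⟨b.orthonormal.1 α, h1, h2⟩
    refine ⟨⟨?_, ?_, fun α => (hUN α).nx, hA.r0, hA.nx, ?_⟩, hUN, hsum⟩
    · funext i j
      have h1 := hsum ⟨_, hB i j⟩
      have h2 : ∀ α, (inner ℝ (b α) (⟨_, hB i j⟩ : V) : ℝ) = kn A (b α : EE N) i j := by
        intro α
        change (inner ℝ (b α : EE N) (A i j + (if i = j then r else 0) • x₀) : ℝ) =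
          inner ℝ (A i j) (b α : EE N)
        rw [inner_add_right, real_inner_smul_right, (hUN α).nx, mul_zero, add_zero,
          real_inner_comm]
      rw [Finset.sum_congr rfl fun α _ => by rw [h2 α]] at h1
      exact eq_sub_of_add_eq h1
    · exact b.orthonormal.comp_linearIsometry V.subtypeₗᵢ
    · intro α i j
      change (inner ℝ (A i j) (b α : EE N) : ℝ) = inner ℝ (A j i) (b α : EE N)
      rw [hA.sy i j]
  -- the mean curvature vector
  have hh : ∃ h : V, ∀ v : V, (inner ℝ h v : ℝ) = inner ℝ (Hv A) (v : EE N) := by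
    refine ⟨∑ i, ⟨_, hB i i⟩, ?_⟩
    intro v
    rw [Submodule.coe_inner, Submodule.coe_sum]
    unfold Hv
    rw [sum_inner, sum_inner]
    refine Finset.sum_congr rfl fun i _ => ?_
    change (inner ℝ (A i i + (if i = i then r else 0) • x₀) (v : EE N) : ℝ) = _
    rw [inner_add_left, real_inner_smul_left, real_inner_comm, real_inner_comm (v : EE N) x₀,
      ((hmem _).1 v.2).2, real_inner_comm]
    ring
  obtain ⟨h, hh⟩ := hh
  constructor
  · intro ν hν
    obtain ⟨b, hb0, -, hb⟩ := frm_one V hV ⟨ν, (hmem ν).2 ⟨hν.nL, hν.nx⟩⟩ h hν.n1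
    obtain ⟨h1, h2, -⟩ := hfr b
    refine ⟨fun α => (b α : EE N), h1, h2, congrArg Subtype.val hb0, ?_⟩
    intro j
    rw [← hh]
    exact hb j
  · obtain ⟨b, hb⟩ : ∃ b : OrthonormalBasis (Fin (k + 2)) ℝ V,
        ∀ j : Fin (k + 1), (inner ℝ h (b j.succ) : ℝ) = 0 := by
      by_cases h0 : h = 0
      · obtain ⟨b, hb⟩ : ∃ b : OrthonormalBasis (Fin (k + 2)) ℝ V, True :=
          ⟨(stdOrthonormalBasis ℝ V).reindex (finCongr hV), trivial⟩
        exact ⟨b, fun j => by rw [h0, inner_zero_left]⟩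
      · have hn : ‖h‖ ≠ 0 := norm_ne_zero_iff.2 h0
        obtain ⟨b, -, hb, -⟩ := frm_one V hV (‖h‖⁻¹ • h) h (by
          rw [norm_smul, norm_inv, norm_norm, inv_mul_cancel₀ hn])
        exact ⟨b, hb ⟨‖h‖, by rw [smul_smul, mul_inv_cancel₀ hn, one_smul]⟩⟩
    obtain ⟨h1, h2, h3⟩ := hfr b
    refine ⟨fun α => (b α : EE N), h1, h2, ?_, ?_⟩
    · intro j
      rw [← hh]
      exact hb j
    · intro ν hν
      have hm := (hmem ν).2 ⟨hν.nL, hν.nx⟩
      refine ⟨fun α => inner ℝ (b α) (⟨ν, hm⟩ : V), ?_, h3 ⟨ν, hm⟩⟩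
      have h4 := b.sum_sq_norm_inner_right (⟨ν, hm⟩ : V)
      have h5 : ‖(⟨ν, hm⟩ : V)‖ = 1 := hν.n1
      rw [h5] at h4
      rw [← one_pow 2, ← h4]
      refine Finset.sum_congr rfl fun α _ => ?_
      rw [Real.norm_eq_abs, sq_abs]

end Pool.Agent.Helper99.HG
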