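import Pool.Agent.Helper80.HG.St

/-!
# Project HG (MP_1bacb5_al), module HB: basic facts on the Hardy field
-/

set_option autoImplicit false

namespace Pool.Agent.Helper99.HG

open Pool.Agent.Helper80.HG Filter Topology Asymptotics
open scoped commutatorElement

/-- weak monotonicity near `+∞` -/
private theorem HB_mono {f f' : ℝ → ℝ} (h1 : ∀ᶠ x in atTop, HasDerivAt f (f' x) x)
    (h2 : ∀ᶠ x in atTop, 0 ≤ f' x) : ∃ a : ℝ, MonotoneOn f (Set.Ici a) := by
  obtain ⟨a, ha⟩ := eventually_atTop.1 (h1.and h2)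
  refine ⟨a, monotoneOn_of_deriv_nonneg (convex_Ici a) ?_ ?_ ?_⟩
  · exact fun x hx => (ha x hx).1.continuousAt.continuousWithinAt
  · intro x hx
    rw [interior_Ici] at hx
    exact (ha x (le_of_lt hx)).1.differentiableAt.differentiableWithinAt
  · intro x hx
    rw [interior_Ici] at hx
    rw [(ha x (le_of_lt hx)).1.deriv]
    exact (ha x (le_of_lt hx)).2

private theorem HB_limp {f f' : ℝ → ℝ} (h1 : ∀ᶠ x in atTop, HasDerivAt f (f' x) x)
    (h2 : ∀ᶠ x in atTop, 0 ≤ f' x) : (∃ c : ℝ, Tendsto f atTop (𝓝 c)) ∨ Tendsto f atTop atTop := by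
  obtain ⟨a, ha⟩ := HB_mono h1 h2
  have hF : Monotone (fun x => f (max x a)) := fun x y hxy =>
    ha (Set.mem_Ici.2 (le_max_right x a)) (Set.mem_Ici.2 (le_max_right y a))
      (max_le_max hxy le_rfl)
  have he : (fun x => f (max x a)) =ᶠ[atTop] f := by
    filter_upwards [eventually_ge_atTop a] with x hx
    rw [max_eq_left hx]
  rcases tendsto_of_monotone hF with h | ⟨l, h⟩
  · exact Or.inr (h.congr' he)
  · exact Or.inl ⟨l, h.congr' he⟩

private theorem HB_top {f f' : ℝ → ℝ} (h1 : ∀ᶠ x in atTop, HasDerivAt f (f' x) x) {e : ℝ}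
    (he : 0 < e) (h2 : ∀ᶠ x in atTop, e ≤ f' x) : Tendsto f atTop atTop := by
  have h3 : ∀ᶠ x in atTop, HasDerivAt (fun y => f y - e * y) (f' x - e * 1) x := by
    filter_upwards [h1] with x hx
    exact hx.sub ((hasDerivAt_id x).const_mul e)
  have h4 : ∀ᶠ x in atTop, 0 ≤ f' x - e * 1 := by
    filter_upwards [h2] with x hx
    linarith
  obtain ⟨a, ha⟩ := HB_mono h3 h4
  have h5 : Tendsto (fun x : ℝ => e * x + (f a - e * a)) atTop atTop :=
    tendsto_atTop_add_const_right _ _ (tendsto_id.const_mul_atTop he)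
  refine tendsto_atTop_mono' _ ?_ h5
  filter_upwards [eventually_ge_atTop a] with x hx
  have := ha (Set.mem_Ici.2 le_rfl) (Set.mem_Ici.2 hx) hx
  simp only at this
  linarith

private theorem HB_neg {f f' : ℝ → ℝ} (h1 : ∀ᶠ x in atTop, HasDerivAt f (f' x) x) :
    ∀ᶠ x in atTop, HasDerivAt (fun y => -f y) (-f' x) x := by
  filter_upwards [h1] with x hx
  exact hx.neg

private theorem HB_negtop {f : ℝ → ℝ} (h : Tendsto (fun x => -f x) atTop atTop) :
    Tendsto f atTop atBot := by
  have := tendsto_neg_atTop_atBot.comp h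
  refine this.congr fun x => ?_
  simp

theorem hHB : StHB := by
  intro H hH
  have hsmul : ∀ (c : ℝ), ∀ f ∈ H, (fun x => c * f x) ∈ H := fun c f hf => hH.mul _ (hH.const c) f hf
  have hneg : ∀ f ∈ H, (fun x => -f x) ∈ H := fun f hf =>
    hH.congr _ (hsmul (-1) f hf) _ (Eventually.of_forall fun x => by ring)
  have hdmem : ∀ f ∈ H, ∀ f' : ℝ → ℝ, (∀ᶠ x in atTop, HasDerivAt f (f' x) x) → f' ∈ H := by
    intro f hf f' h
    obtain ⟨f1, hf1, h1⟩ := hH.deriv f hf
    refine hH.congr f1 hf1 f' ?_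
    filter_upwards [h, h1] with x hx hx1
    exact hx1.unique hx
  have hlim : ∀ f ∈ H, (∃ c : ℝ, Tendsto f atTop (𝓝 c)) ∨ Tendsto f atTop atTop ∨
      Tendsto f atTop atBot := by
    intro f hf
    obtain ⟨f1, hf1, h1⟩ := hH.deriv f hf
    rcases hH.sign f1 hf1 with h | h | h
    · rcases HB_limp h1 (h.mono fun x hx => hx.ge) with h2 | h2
      · exact Or.inl h2
      · exact Or.inr (Or.inl h2)
    · rcases HB_limp h1 (h.mono fun x hx => hx.le) with h2 | h2
      · exact Or.inl h2
      · exact Or.inr (Or.inl h2)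
    · rcases HB_limp (HB_neg h1) (h.mono fun x hx => by linarith) with ⟨c, h2⟩ | h2
      · refine Or.inl ⟨-c, ?_⟩
        have := h2.neg
        simpa using this
      · exact Or.inr (Or.inr (HB_negtop h2))
  have hdpos : ∀ f ∈ H, ∀ f' : ℝ → ℝ, Tendsto f atTop atTop →
      (∀ᶠ x in atTop, HasDerivAt f (f' x) x) → ∀ᶠ x in atTop, 0 < f' x := by
    intro f hf f' ht h1
    have hno : ¬ ∀ᶠ x in atTop, 0 ≤ -f' x := by
      intro h2
      obtain ⟨a, ha⟩ := HB_mono (HB_neg h1) h2
      obtain ⟨b, hb1, hb2⟩ := ((ht.eventually_gt_atTop (f a)).and (eventually_ge_atTop a)).exists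
      have := ha (Set.mem_Ici.2 le_rfl) (Set.mem_Ici.2 hb2) hb2
      simp only at this
      linarith
    rcases hH.sign f' (hdmem f hf f' h1) with h | h | h
    · exact absurd (h.mono fun x hx => by rw [hx]; simp) hno
    · exact h
    · exact absurd (h.mono fun x hx => by linarith) hno
  refine ⟨hH, ?_, hneg, ?_, hsmul, hdmem, hlim, ?_, hdpos, ?_, ?_, ?_, ?_⟩
  · intro f hf g hg
    exact hH.congr _ (hH.add f hf _ (hneg g hg)) _ (Eventually.of_forall fun x => by ring)
  · intro f hf g hg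
    exact hH.congr _ (hH.mul f hf _ (hH.inv g hg)) _
      (Eventually.of_forall fun x => (div_eq_mul_inv _ _).symm)
  · intro f hf c f' hc h1
    have hf' := hdmem f hf f' h1
    have no1 : ¬ Tendsto f atTop atTop := not_tendsto_atTop_of_tendsto_nhds hc
    have no2 : ¬ Tendsto f atTop atBot := not_tendsto_atBot_of_tendsto_nhds hc
    rcases hlim f' hf' with ⟨c', h⟩ | h | h
    · rcases lt_trichotomy c' 0 with h0 | h0 | h0
      · refine absurd (HB_negtop (HB_top (HB_neg h1) (e := -c' / 2) (by linarith) ?_)) no2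
        filter_upwards [h.eventually_lt_const (show c' < c' / 2 by linarith)] with x hx
        linarith
      · rw [h0] at h
        exact h
      · refine absurd (HB_top h1 (e := c' / 2) (by linarith) ?_) no1
        filter_upwards [h.eventually_const_lt (show c' / 2 < c' by linarith)] with x hx
        exact hx.le
    · exact absurd (HB_top h1 one_pos (h.eventually_ge_atTop 1)) no1
    · refine absurd (HB_negtop (HB_top (HB_neg h1) one_pos ?_)) no2
      filter_upwards [h.eventually_le_atBot (-1)] with x hx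
      linarith
  · intro f hf ht
    obtain ⟨f1, hf1, h1⟩ := hH.deriv f hf
    obtain ⟨a, ha⟩ := eventually_atTop.1 (h1.and (hdpos f hf f1 ht h1))
    refine ⟨a, strictMonoOn_of_deriv_pos (convex_Ici a) ?_ ?_⟩
    · exact fun x hx => (ha x hx).1.continuousAt.continuousWithinAt
    · intro x hx
      rw [interior_Ici] at hx
      rw [(ha x (le_of_lt hx)).1.deriv]
      exact (ha x (le_of_lt hx)).2
  · intro f hf
    obtain ⟨f1, hf1, h1⟩ := hH.deriv f hf
    obtain ⟨a, ha⟩ := eventually_atTop.1 h1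
    exact ⟨a, fun x hx => (ha x hx).continuousAt.continuousWithinAt⟩
  · intro f hf hpos h0
    have h1 : Tendsto (fun x => (f x)⁻¹) atTop atTop := by
      have h2 : Tendsto f atTop (𝓝[>] 0) := tendsto_nhdsWithin_iff.2 ⟨h0, hpos⟩
      exact tendsto_inv_nhdsGT_zero.comp h2
    have h3 := hH.comp _ hH.log _ (hH.inv f hf) h1
    have h4 : ∀ x, Real.log ((f x)⁻¹) = -Real.log (f x) := fun x => Real.log_inv _
    refine ⟨hH.congr _ h3 _ (Eventually.of_forall fun x => h4 x), ?_⟩
    exact (Real.tendsto_log_atTop.comp h1).congr fun x => h4 x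
  · intro f hf ht
    have h3 := hH.inv _ (hH.comp _ hH.exp f hf ht)
    refine ⟨hH.congr _ h3 _ (Eventually.of_forall fun x => (Real.exp_neg _).symm), ?_⟩
    exact Real.tendsto_exp_neg_atTop_nhds_zero.comp ht

end Pool.Agent.Helper99.HG
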